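import Pool.Agent.Helper56GD.Block

/-! The block lemma (piece SUM of project GD of helper30). -/

set_option autoImplicit false
set_option maxHeartbeats 1000000

namespace Pool.Agent.Helper56GD

open Complex Finset
open Pool.Agent.N879.GD

noncomputable section

theorem blk (hA : S_BA) (hB : S_BB) : ∃ s C : ℝ, 0 < s ∧ s ≤ 1 / 32 ∧ 0 < C ∧
    ∀ (ε σ T y ω : ℝ) (m R L X : ℕ), 0 < ε → ε ≤ 1 / 4 → 0 ≤ σ → σ ≤ 1 → 256 ≤ T →
    T ^ (1 + ε) ≤ X → (X : ℝ) ≤ 2 * T ^ (1 + ε) → 1 ≤ m → 1 ≤ R → L ≤ R → m * (m + R) ≤ X →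
    ‖∑ r ∈ Finset.range L, bt σ 4 T y ω m (m + R + r)‖ ≤
      C * (1 + |y|) * (T ^ (ε / 2 - s) / m) := by
  obtain ⟨C₁, hC₁, hA⟩ := hA 4 (by norm_num)
  obtain ⟨η, hη, hη1, hB⟩ := hB
  obtain ⟨C₂, hC₂, hB⟩ := hB 4 (by norm_num)
  refine ⟨η / 32, 10000000 * (C₁ + C₂), by positivity, by linarith, by positivity, ?_⟩
  intro ε σ T y ω m R L X hε hε1 hσ0 hσ1 hT hX1 hX2 hm hR hL hmX
  have hT0 : 0 < T := by linarith
  have hT1 : 1 ≤ T := by linarith
  have hm0 : (0 : ℝ) < m := by exact_mod_cast hm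
  have hR0 : (0 : ℝ) < R := by exact_mod_cast hR
  have hm1 : (1 : ℝ) ≤ m := by exact_mod_cast hm
  have hR1 : (1 : ℝ) ≤ R := by exact_mod_cast hR
  have hmX' : (m : ℝ) * (m + R) ≤ X := by exact_mod_cast hmX
  obtain ⟨a, ha⟩ : ∃ a : ℝ, a = T ^ (1 / 16 : ℝ) := ⟨_, rfl⟩
  have ha0 : 0 < a := by rw [ha]; positivity
  have ha16 : a ^ 16 = T := by
    rw [ha, ← Real.rpow_natCast, ← Real.rpow_mul hT0.le]
    norm_num
  have ha2 : 2 ≤ a ^ 2 := by
    by_contra h
    push Not at h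
    have h1 : (a ^ 2) ^ 8 < 2 ^ 8 := pow_lt_pow_left₀ h (by positivity) (by norm_num)
    rw [← pow_mul] at h1
    norm_num at h1
    linarith
  have ha1 : 1 ≤ a := by
    by_contra h
    push Not at h
    nlinarith
  have hX3 : (X : ℝ) ≤ 2 * a ^ 20 := by
    refine hX2.trans ?_
    have h1 : T ^ (1 + ε) ≤ T ^ (5 / 4 : ℝ) := Real.rpow_le_rpow_of_exponent_le hT1 (by linarith)
    have h2 : T ^ (5 / 4 : ℝ) = a ^ 20 := by
      rw [ha, ← Real.rpow_natCast (T ^ (1 / 16 : ℝ)), ← Real.rpow_mul hT0.le]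
      norm_num
    linarith
  have hX4 : a ^ 16 ≤ X := by
    refine le_trans ?_ hX1
    rw [ha16]
    calc T = T ^ (1 : ℝ) := (Real.rpow_one T).symm
      _ ≤ T ^ (1 + ε) := Real.rpow_le_rpow_of_exponent_le hT1 (by linarith)
  have hm2 : (m : ℝ) ^ 2 ≤ X := by nlinarith
  have hRm : (R : ℝ) * m ≤ X := by nlinarith
  -- powers of `a`
  have ha12 : 64 ≤ a ^ 12 := by
    have : (2 : ℝ) ^ 6 ≤ (a ^ 2) ^ 6 := pow_le_pow_left₀ (by norm_num) ha2 6
    rw [← pow_mul] at this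
    norm_num at this
    exact this
  have ha14 : 128 ≤ a ^ 14 := by
    have : (2 : ℝ) ^ 7 ≤ (a ^ 2) ^ 7 := pow_le_pow_left₀ (by norm_num) ha2 7
    rw [← pow_mul] at this
    norm_num at this
    exact this
  -- `z`
  obtain ⟨z, hz⟩ : ∃ z : ℝ, z = zz T m R := ⟨_, rfl⟩
  have hx0 : (0 : ℝ) < R / m := by positivity
  have hlg := lg_low ((R : ℝ) / m) hx0
  have hmin0 : 0 < min 1 ((R : ℝ) / m) := lt_min one_pos hx0
  have hlg0 : 0 < Real.log (1 + (R : ℝ) / m) := by linarith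
  have hzT : T * min 1 ((R : ℝ) / m) ≤ 2 * z := by
    rw [hz]
    unfold zz
    have := mul_le_mul_of_nonneg_left hlg hT0.le
    linarith
  have h2m : 2 * (m : ℝ) ≤ T := by
    rw [← ha16]
    by_contra h
    push Not at h
    have h1 : (a ^ 16) ^ 2 < (2 * (m : ℝ)) ^ 2 := pow_lt_pow_left₀ h (by positivity) (by norm_num)
    have h2 : (a ^ 16) ^ 2 = a ^ 20 * a ^ 12 := by ring
    have h3 : a ^ 20 * 64 ≤ a ^ 20 * a ^ 12 := mul_le_mul_of_nonneg_left ha12 (by positivity)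
    have h4 : 0 < a ^ 20 := by positivity
    nlinarith
  have hz1 : 1 ≤ z := by
    have h1 : 2 ≤ T * min 1 ((R : ℝ) / m) := by
      rcases le_total 1 ((R : ℝ) / m) with h | h
      · rw [min_eq_left h]; linarith
      · rw [min_eq_right h, ← mul_div_assoc, le_div_iff₀ hm0]
        nlinarith
    linarith
  have hz0 : 0 < z := by linarith
  -- `w`, `q`
  obtain ⟨w, hw⟩ : ∃ w : ℝ, w = 1 + |ω| := ⟨_, rfl⟩
  have hw0 : 0 < w := by rw [hw]; positivity
  obtain ⟨q, hq⟩ : ∃ q : ℝ, q = w / z := ⟨_, rfl⟩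
  have hq0 : 0 < q := by rw [hq]; positivity
  have hqz : q * z = w := by rw [hq]; field_simp
  have hsz := size T w z m R hT0 hm hR hw0 hz hz0
  have hex := expo ω z hz1
  rw [← hw] at hex
  rw [← hq] at hsz hex
  obtain ⟨P, hP⟩ : ∃ P : ℝ, P = √((R : ℝ) / (m * T)) := ⟨_, rfl⟩
  rw [← hP] at hsz
  have hP0 : 0 ≤ P := by rw [hP]; exact Real.sqrt_nonneg _
  obtain ⟨Q, hQ⟩ : ∃ Q : ℝ, Q = T ^ (ε / 2) / m := ⟨_, rfl⟩
  have hQ0 : 0 < Q := by rw [hQ]; positivity
  have hXT : (X : ℝ) ≤ T * (2 * T ^ ε) := by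
    rw [Real.rpow_add hT0, Real.rpow_one] at hX2
    linarith
  have hTe : (T ^ (ε / 2)) ^ 2 = T ^ ε := by
    rw [← Real.rpow_natCast, ← Real.rpow_mul hT0.le]
    norm_num
  have hPQ : P ≤ 2 * Q := by
    rw [hP]
    refine Real.sqrt_le_iff.2 ⟨by positivity, ?_⟩
    rw [hQ, mul_pow, div_pow, hTe, div_le_iff₀ (by positivity)]
    have h1 : (2 : ℝ) ^ 2 * (T ^ ε / (m : ℝ) ^ 2) * (m * T) = 4 * (T * T ^ ε) / m := by
      field_simp
      ring
    rw [h1, le_div_iff₀ hm0]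
    have : 0 < T * T ^ ε := by positivity
    linarith
  -- the saving
  obtain ⟨S, hS⟩ : ∃ S : ℝ, S = T ^ (-(η / 32)) := ⟨_, rfl⟩
  have hS0 : 0 < S := by rw [hS]; positivity
  have hgoal : T ^ (ε / 2 - η / 32) / (m : ℝ) = Q * S := by
    rw [hQ, hS, sub_eq_add_neg, Real.rpow_add hT0]
    ring
  rw [hgoal]
  have haS : a⁻¹ ≤ S := by
    rw [hS, ha, ← Real.rpow_neg hT0.le]
    exact Real.rpow_le_rpow_of_exponent_le hT1 (by linarith)
  have haS2 : (√a)⁻¹ ≤ S := by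
    have h1 : (√a)⁻¹ = T ^ (-(1 / 32) : ℝ) := by
      rw [Real.sqrt_eq_rpow, ha, ← Real.rpow_mul hT0.le, ← Real.rpow_neg hT0.le]
      norm_num
    rw [h1, hS]
    exact Real.rpow_le_rpow_of_exponent_le hT1 (by linarith)
  have hy0 : 0 ≤ |y| := abs_nonneg y
  have hfin : ∀ B : ℝ, B ≤ 10000000 * (C₁ + C₂) * (Q * S) →
      B ≤ 10000000 * (C₁ + C₂) * (1 + |y|) * (Q * S) := by
    intro B hB
    refine hB.trans ?_
    have : 0 ≤ 10000000 * (C₁ + C₂) * (Q * S) * |y| := by positivity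
    linarith
  -- the trivial bound
  have hA1 : ‖∑ r ∈ Finset.range L, bt σ 4 T y ω m (m + R + r)‖ ≤
      4 * C₁ * P * (√q ^ 7 * Real.exp (-(q / 4))) := by
    have h1 := hA σ T y ω m R L hσ0 hσ1 hT0 hm hR hL (by rw [← hz]; exact hz1)
    rw [← hz, ← hw, ← hq] at h1
    refine h1.trans ?_
    calc C₁ * (√((m : ℝ) * (m + R)))⁻¹ * w ^ (-(1 / 2 : ℝ)) * q ^ 4 *
          Real.exp (-(|ω| / (4 * z))) * R =
        C₁ * ((√((m : ℝ) * (m + R)))⁻¹ * w ^ (-(1 / 2 : ℝ)) * q ^ 4 * R) *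
          Real.exp (-(|ω| / (4 * z))) := by ring
      _ ≤ C₁ * (2 * P * √q ^ 7) * (2 * Real.exp (-(q / 4))) := by
          refine mul_le_mul (mul_le_mul_of_nonneg_left hsz hC₁.le) hex (Real.exp_pos _).le
            (by positivity)
      _ = _ := by ring
  by_cases hqa : q ≤ a⁻¹
  · apply hfin
    refine hA1.trans ?_
    have h1 := hq_small q hq0 (hqa.trans (inv_le_one_of_one_le₀ ha1))
    calc 4 * C₁ * P * (√q ^ 7 * Real.exp (-(q / 4))) ≤ 4 * C₁ * (2 * Q) * S := by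
          refine mul_le_mul (mul_le_mul_of_nonneg_left hPQ (by positivity)) (h1.trans (hqa.trans haS))
            (by positivity) (by positivity)
      _ = 8 * C₁ * (Q * S) := by ring
      _ ≤ 10000000 * (C₁ + C₂) * (Q * S) := by
          refine mul_le_mul_of_nonneg_right ?_ (by positivity)
          linarith
  push Not at hqa
  by_cases hqb : a ≤ q
  · apply hfin
    refine hA1.trans ?_
    have h1 := hq_large q (ha1.trans hqb)
    have h2 : 250000 / q ≤ 250000 * S := by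
      rw [div_eq_mul_inv]
      refine mul_le_mul_of_nonneg_left ?_ (by norm_num)
      exact (inv_anti₀ ha0 hqb).trans haS
    calc 4 * C₁ * P * (√q ^ 7 * Real.exp (-(q / 4))) ≤ 4 * C₁ * (2 * Q) * (250000 * S) := by
          refine mul_le_mul (mul_le_mul_of_nonneg_left hPQ (by positivity)) (h1.trans h2)
            (by positivity) (by positivity)
      _ = 2000000 * C₁ * (Q * S) := by ring
      _ ≤ 10000000 * (C₁ + C₂) * (Q * S) := by
          refine mul_le_mul_of_nonneg_right ?_ (by positivity)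
          linarith
  push Not at hqb
  by_cases hRa : (R : ℝ) * m * a ≤ X
  · apply hfin
    refine hA1.trans ?_
    have h1 := hq_all q hq0
    have h2 : P ≤ 2 * Q * (√a)⁻¹ := by
      rw [hP]
      refine Real.sqrt_le_iff.2 ⟨by positivity, ?_⟩
      rw [hQ, mul_pow, mul_pow, inv_pow, Real.sq_sqrt ha0.le, div_pow, hTe,
        div_le_iff₀ (by positivity)]
      have h1 : (2 : ℝ) ^ 2 * (T ^ ε / (m : ℝ) ^ 2) * a⁻¹ * (m * T) =
          4 * (T * T ^ ε) / (m * a) := by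
        field_simp
        ring
      rw [h1, le_div_iff₀ (by positivity)]
      have : 0 < T * T ^ ε := by positivity
      linarith
    have h3 : P ≤ 2 * Q * S := h2.trans (mul_le_mul_of_nonneg_left haS2 (by positivity))
    calc 4 * C₁ * P * (√q ^ 7 * Real.exp (-(q / 4))) ≤ 4 * C₁ * (2 * Q * S) * 250000 := by
          refine mul_le_mul (mul_le_mul_of_nonneg_left h3 (by positivity)) h1
            (by positivity) (by positivity)
      _ = 2000000 * C₁ * (Q * S) := by ring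
      _ ≤ 10000000 * (C₁ + C₂) * (Q * S) := by
          refine mul_le_mul_of_nonneg_right ?_ (by positivity)
          linarith
  push Not at hRa
  -- the main range
  have hfr0 : (0 : ℝ) < R / (m + R) := by positivity
  have hfr1 : (R : ℝ) / (m + R) ≤ 1 := (fr_up m R hm0 hR0).trans (min_le_left _ _)
  have hkz : kap m R * z = T * (R / (m + R)) := by
    rw [hz]
    unfold kap zz
    have h0 := hlg0.ne'
    generalize Real.log (1 + (R : ℝ) / m) = l at h0
    field_simp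
  have hk2 : kap m R ≤ 2 := by
    unfold kap
    rw [div_le_iff₀ hlg0]
    exact (fr_up m R hm0 hR0).trans hlg
  have hk0 : 0 < kap m R := by
    unfold kap
    positivity
  have hfr2 : a⁻¹ ≤ 2 * ((R : ℝ) / (m + R)) := by
    refine le_trans ?_ (fr_low m R hm0 hR0)
    refine le_min (inv_le_one_of_one_le₀ ha1) ?_
    rw [inv_eq_one_div, div_le_div_iff₀ ha0 hm0]
    have h1 : (m : ℝ) * m ≤ (R * a) * m := by nlinarith
    have h2 := le_of_mul_le_mul_right h1 hm0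
    linarith
  have hkw : kap m R * |ω| = q * (T * (R / (m + R))) - kap m R := by
    have h1 : |ω| = q * z - 1 := by rw [hqz, hw]; ring
    rw [h1, ← hkz]
    ring
  have hk3 : a ^ 14 / 4 ≤ kap m R * |ω| := by
    rw [hkw]
    have h1 : a⁻¹ * (T * (a⁻¹ / 2)) ≤ q * (T * (R / (m + R))) := by
      refine mul_le_mul hqa.le (mul_le_mul_of_nonneg_left (by linarith) hT0.le) (by positivity)
        hq0.le
    have h2 : a⁻¹ * (T * (a⁻¹ / 2)) = a ^ 14 / 2 := by
      rw [← ha16]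
      field_simp
    rw [h2] at h1
    linarith
  have hpi := Real.pi_lt_four
  have hk4 : 2 * Real.pi ≤ kap m R * |ω| := by linarith
  have hRa7 : a ^ 7 ≤ R := by
    have h1 : (m : ℝ) * a ^ 8 ≤ X := by
      have h2 : ((m : ℝ) * a ^ 8) ^ 2 ≤ (X : ℝ) ^ 2 := by
        calc ((m : ℝ) * a ^ 8) ^ 2 = (m : ℝ) ^ 2 * a ^ 16 := by ring
          _ ≤ (X : ℝ) * X := mul_le_mul hm2 hX4 (by positivity) (by positivity)
          _ = (X : ℝ) ^ 2 := by ring
      exact le_of_sq_le_sq h2 (by positivity)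
    have h2 : a ^ 7 * (m * a) ≤ R * (m * a) := by
      calc a ^ 7 * (m * a) = m * a ^ 8 := by ring
        _ ≤ (X : ℝ) := h1
        _ ≤ R * m * a := hRa.le
        _ = R * (m * a) := by ring
    exact le_of_mul_le_mul_right h2 (by positivity)
  have hk5 : kap m R * |ω| ≤ (R : ℝ) ^ 5 := by
    rw [hkw]
    have h1 : q * (T * (R / (m + R))) ≤ a * (T * 1) :=
      mul_le_mul hqb.le (mul_le_mul_of_nonneg_left hfr1 hT0.le) (by positivity) ha0.le
    have h2 : a * (T * 1) = a ^ 17 := by rw [← ha16]; ring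
    have h3 : a ^ 17 ≤ a ^ 35 := pow_le_pow_right₀ ha1 (by norm_num)
    have h4 : (a ^ 7) ^ 5 ≤ (R : ℝ) ^ 5 := pow_le_pow_left₀ (by positivity) hRa7 5
    rw [← pow_mul] at h4
    norm_num at h4
    linarith
  have h1 := hB σ T y ω m R L hσ0 hσ1 hT0 hm hR hL (by rw [← hz]; exact hz1) hk4 hk5
  rw [← hz, ← hw, ← hq] at h1
  refine h1.trans ?_
  have h2 : (R : ℝ) ^ (1 - η) ≤ R * S := by
    rw [sub_eq_add_neg, Real.rpow_add hR0, Real.rpow_one]
    refine mul_le_mul_of_nonneg_left ?_ hR0.le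
    calc (R : ℝ) ^ (-η) ≤ (a ^ 7) ^ (-η) :=
          Real.rpow_le_rpow_of_nonpos (by positivity) hRa7 (by linarith)
      _ = T ^ (-(7 / 16 * η)) := by
          rw [ha, ← Real.rpow_natCast (T ^ (1 / 16 : ℝ)), ← Real.rpow_mul hT0.le,
            ← Real.rpow_mul hT0.le]
          congr 1
          push_cast
          ring
      _ ≤ S := by
          rw [hS]
          exact Real.rpow_le_rpow_of_exponent_le hT1 (by linarith)
  have h3 : (R : ℝ) / (kap m R * |ω|) ≤ R * (4 * S) := by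
    rw [div_eq_mul_inv]
    refine mul_le_mul_of_nonneg_left ?_ hR0.le
    have h4 : (kap m R * |ω|)⁻¹ ≤ (a ^ 14 / 4)⁻¹ := inv_anti₀ (by positivity) hk3
    have h5 : (a ^ 14 / 4)⁻¹ = 4 * (a ^ 14)⁻¹ := by
      rw [inv_div, div_eq_mul_inv]
    have h6 : (a ^ 14)⁻¹ ≤ a⁻¹ := inv_anti₀ ha0 (le_self_pow₀ ha1 (by norm_num))
    linarith
  have h4 : (R : ℝ) ^ (1 - η) + R / (kap m R * |ω|) ≤ 5 * R * S := by linarith
  have h5 := hq_mid q hq0
  calc C₂ * (1 + |y|) * (√((m : ℝ) * (m + R)))⁻¹ * w ^ (-(1 / 2 : ℝ)) * q ^ 4 * (1 + q) *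
        Real.exp (-(|ω| / (4 * z))) * ((R : ℝ) ^ (1 - η) + R / (kap m R * |ω|)) ≤
      C₂ * (1 + |y|) * (√((m : ℝ) * (m + R)))⁻¹ * w ^ (-(1 / 2 : ℝ)) * q ^ 4 * (1 + q) *
        Real.exp (-(|ω| / (4 * z))) * (5 * R * S) :=
        mul_le_mul_of_nonneg_left h4 (by positivity)
    _ = 5 * C₂ * (1 + |y|) * S * (1 + q) *
        ((√((m : ℝ) * (m + R)))⁻¹ * w ^ (-(1 / 2 : ℝ)) * q ^ 4 * R) *
        Real.exp (-(|ω| / (4 * z))) := by ring
    _ ≤ 5 * C₂ * (1 + |y|) * S * (1 + q) * (2 * P * √q ^ 7) * (2 * Real.exp (-(q / 4))) := by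
        refine mul_le_mul (mul_le_mul_of_nonneg_left hsz (by positivity)) hex (Real.exp_pos _).le
          (by positivity)
    _ = 20 * C₂ * (1 + |y|) * S * P * (√q ^ 7 * (1 + q) * Real.exp (-(q / 4))) := by ring
    _ ≤ 20 * C₂ * (1 + |y|) * S * (2 * Q) * 250000 := by
        refine mul_le_mul (mul_le_mul_of_nonneg_left hPQ (by positivity)) h5 (by positivity)
          (by positivity)
    _ = 10000000 * C₂ * (1 + |y|) * (Q * S) := by ring
    _ ≤ 10000000 * (C₁ + C₂) * (1 + |y|) * (Q * S) := by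
        refine mul_le_mul_of_nonneg_right ?_ (by positivity)
        refine mul_le_mul_of_nonneg_right ?_ (by positivity)
        linarith

end

end Pool.Agent.Helper56GD
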