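import Pool.Agent.N879.GD.Stm

/-! One block of the off-diagonal sum (piece SUM of project GD of helper30). -/

set_option autoImplicit false

namespace Pool.Agent.Helper56GD

open Complex Finset
open Pool.Agent.N879.GD

noncomputable section

theorem lg_low (x : ℝ) (hx : 0 < x) : min 1 x ≤ 2 * Real.log (1 + x) := by
  have h1 := Real.one_sub_inv_le_log_of_pos (show 0 < 1 + x by linarith)
  rcases le_total x 1 with h | h
  · rw [min_eq_right h]
    have h2 : x / 2 ≤ 1 - (1 + x)⁻¹ := by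
      have e : 1 - (1 + x)⁻¹ = x / (1 + x) := by field_simp; ring
      rw [e, div_le_div_iff₀ (by norm_num) (by linarith)]
      nlinarith
    linarith
  · rw [min_eq_left h]
    have h2 : (1 / 2 : ℝ) ≤ 1 - (1 + x)⁻¹ := by
      have h3 : (1 + x)⁻¹ ≤ 2⁻¹ := inv_anti₀ (by norm_num) (by linarith)
      linarith
    linarith

theorem fr_up (m R : ℝ) (hm : 0 < m) (hR : 0 < R) : R / (m + R) ≤ min 1 (R / m) := by
  refine le_min ?_ ?_
  · rw [div_le_one (by linarith)]; linarith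
  · exact div_le_div_of_nonneg_left hR.le hm (by linarith)

theorem fr_low (m R : ℝ) (hm : 0 < m) (hR : 0 < R) : min 1 (R / m) ≤ 2 * (R / (m + R)) := by
  rcases le_total R m with h | h
  · refine (min_le_right _ _).trans ?_
    rw [← mul_div_assoc, div_le_div_iff₀ hm (by linarith)]
    nlinarith
  · refine (min_le_left _ _).trans ?_
    rw [← mul_div_assoc, le_div_iff₀ (by linarith)]
    linarith

theorem pow_exp (q : ℝ) (hq : 0 ≤ q) (n : ℕ) : q ^ n * Real.exp (-(q / 4)) ≤ 4 ^ n * n.factorial := by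
  have h1 := Real.pow_div_factorial_le_exp (q / 4) (by positivity) n
  rw [div_le_iff₀ (by positivity), div_pow, div_le_iff₀ (by positivity)] at h1
  rw [Real.exp_neg, ← div_eq_mul_inv, div_le_iff₀ (Real.exp_pos _)]
  linarith

/-- the function `q^(7/2) e^(-q/4)` -/
theorem hq_small (q : ℝ) (h0 : 0 < q) (h1 : q ≤ 1) : √q ^ 7 * Real.exp (-(q / 4)) ≤ q := by
  have h2 : √q ≤ 1 := Real.sqrt_le_one.2 h1
  have h3 : √q ^ 7 ≤ √q ^ 2 := pow_le_pow_of_le_one (Real.sqrt_nonneg _) h2 (by norm_num)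
  rw [Real.sq_sqrt h0.le] at h3
  have h4 : Real.exp (-(q / 4)) ≤ 1 := Real.exp_le_one_iff.2 (by linarith)
  calc √q ^ 7 * Real.exp (-(q / 4)) ≤ q * 1 := mul_le_mul h3 h4 (Real.exp_pos _).le h0.le
    _ = q := mul_one q

theorem sq7 (q : ℝ) (h1 : 1 ≤ q) : √q ^ 7 ≤ q ^ 4 := by
  have h2 : 1 ≤ √q := Real.one_le_sqrt.2 h1
  have h3 : √q ^ 7 ≤ √q ^ 8 := pow_le_pow_right₀ h2 (by norm_num)
  have h4 : √q ^ 8 = q ^ 4 := by
    rw [show (8 : ℕ) = 2 * 4 from rfl, pow_mul, Real.sq_sqrt (by linarith)]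
  linarith

theorem hq_mid (q : ℝ) (h0 : 0 < q) : √q ^ 7 * (1 + q) * Real.exp (-(q / 4)) ≤ 250000 := by
  rcases le_total q 1 with h | h
  · have h1 := hq_small q h0 h
    have h2 : √q ^ 7 * (1 + q) * Real.exp (-(q / 4)) = √q ^ 7 * Real.exp (-(q / 4)) * (1 + q) := by
      ring
    rw [h2]
    have h3 : 0 ≤ √q ^ 7 * Real.exp (-(q / 4)) := by positivity
    nlinarith
  · have h1 := sq7 q h
    have h2 := pow_exp q h0.le 5
    have h3 : √q ^ 7 * (1 + q) ≤ 2 * q ^ 5 := by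
      have h4 : √q ^ 7 * (1 + q) ≤ q ^ 4 * (2 * q) :=
        mul_le_mul h1 (by linarith) (by linarith) (by positivity)
      calc √q ^ 7 * (1 + q) ≤ q ^ 4 * (2 * q) := h4
        _ = 2 * q ^ 5 := by ring
    have h4 : √q ^ 7 * (1 + q) * Real.exp (-(q / 4)) ≤ 2 * q ^ 5 * Real.exp (-(q / 4)) :=
      mul_le_mul_of_nonneg_right h3 (Real.exp_pos _).le
    have h5 : ((5 : ℕ).factorial : ℝ) = 120 := by norm_num [Nat.factorial]
    rw [h5] at h2
    norm_num at h2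
    nlinarith

theorem hq_large (q : ℝ) (h1 : 1 ≤ q) : √q ^ 7 * Real.exp (-(q / 4)) ≤ 250000 / q := by
  have h0 : 0 < q := by linarith
  rw [le_div_iff₀ h0]
  have h2 := hq_mid q h0
  have h3 : √q ^ 7 * Real.exp (-(q / 4)) * q ≤ √q ^ 7 * (1 + q) * Real.exp (-(q / 4)) := by
    have h4 : 0 ≤ √q ^ 7 * Real.exp (-(q / 4)) := by positivity
    nlinarith
  linarith

theorem hq_all (q : ℝ) (h0 : 0 < q) : √q ^ 7 * Real.exp (-(q / 4)) ≤ 250000 := by
  have h2 := hq_mid q h0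
  have h3 : √q ^ 7 * Real.exp (-(q / 4)) ≤ √q ^ 7 * (1 + q) * Real.exp (-(q / 4)) := by
    have h4 : 0 ≤ √q ^ 7 * Real.exp (-(q / 4)) := by positivity
    nlinarith
  linarith

/-- size of a block -/
theorem size (T w z : ℝ) (m R : ℕ) (hT : 0 < T) (hm : 1 ≤ m) (hR : 1 ≤ R) (hw : 0 < w)
    (hz : z = zz T m R) (hz0 : 0 < z) :
    (√((m : ℝ) * (m + R)))⁻¹ * w ^ (-(1 / 2 : ℝ)) * (w / z) ^ 4 * R ≤
      2 * √((R : ℝ) / (m * T)) * √(w / z) ^ 7 := by
  have hm0 : (0 : ℝ) < m := by exact_mod_cast hm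
  have hR0 : (0 : ℝ) < R := by exact_mod_cast hR
  have hq : 0 < w / z := by positivity
  have h1 : (√((m : ℝ) * (m + R)))⁻¹ * R ≤ 2 * √((R : ℝ) / (m * T)) * √z := by
    have h2 : (√((m : ℝ) * (m + R)))⁻¹ * R = √((R / m) * (R / (m + R))) := by
      have e1 : ((√((m : ℝ) * (m + R)))⁻¹ * R) ^ 2 = (R / m) * (R / (m + R)) := by
        rw [mul_pow, inv_pow, Real.sq_sqrt (by positivity)]
        field_simp
      rw [← e1, Real.sqrt_sq (by positivity)]
    have h3 : 2 * √((R : ℝ) / (m * T)) * √z = √(4 * (R / (m * T)) * z) := by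
      rw [Real.sqrt_mul (by positivity), Real.sqrt_mul (by norm_num),
        show (4 : ℝ) = 2 ^ 2 by norm_num, Real.sqrt_sq (by norm_num)]
    rw [h2, h3]
    refine Real.sqrt_le_sqrt ?_
    have h4 : (R : ℝ) / (m + R) ≤ 2 * Real.log (1 + (R : ℝ) / m) :=
      (fr_up m R hm0 hR0).trans (lg_low _ (by positivity))
    have h5 : 4 * ((R : ℝ) / (m * T)) * z = (R / m) * (4 * Real.log (1 + (R : ℝ) / m)) := by
      rw [hz]
      unfold zz
      field_simp
    rw [h5]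
    refine mul_le_mul_of_nonneg_left ?_ (by positivity)
    have : 0 ≤ Real.log (1 + (R : ℝ) / m) := Real.log_nonneg (by
      have : (0 : ℝ) ≤ R / m := by positivity
      linarith)
    linarith
  have h2 : w ^ (-(1 / 2 : ℝ)) = (√w)⁻¹ := by
    rw [Real.rpow_neg hw.le, Real.sqrt_eq_rpow]
  have h3 : √z * (√w)⁻¹ * (w / z) ^ 4 = √(w / z) ^ 7 := by
    have e1 : √z * (√w)⁻¹ = (√(w / z))⁻¹ := by
      rw [Real.sqrt_div' _ hz0.le, inv_div]
      rfl
    have e2 : (w / z) ^ 4 = √(w / z) ^ 8 := by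
      rw [show (8 : ℕ) = 2 * 4 from rfl, pow_mul, Real.sq_sqrt hq.le]
    have e3 : √(w / z) ≠ 0 := (Real.sqrt_pos.2 hq).ne'
    rw [e1, e2]
    field_simp
  rw [h2]
  calc (√((m : ℝ) * (m + R)))⁻¹ * (√w)⁻¹ * (w / z) ^ 4 * R =
      ((√((m : ℝ) * (m + R)))⁻¹ * R) * ((√w)⁻¹ * (w / z) ^ 4) := by ring
    _ ≤ (2 * √((R : ℝ) / (m * T)) * √z) * ((√w)⁻¹ * (w / z) ^ 4) :=
        mul_le_mul_of_nonneg_right h1 (by positivity)
    _ = 2 * √((R : ℝ) / (m * T)) * (√z * (√w)⁻¹ * (w / z) ^ 4) := by ring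
    _ = _ := by rw [h3]

theorem expo (ω z : ℝ) (hz : 1 ≤ z) :
    Real.exp (-(|ω| / (4 * z))) ≤ 2 * Real.exp (-((1 + |ω|) / z / 4)) := by
  have h1 : Real.exp (1 / 4) ≤ 2 := by
    have h2 : Real.exp (1 / 4) ≤ Real.exp (Real.log 2) := Real.exp_le_exp.2 (by
      have := Real.log_two_gt_d9
      linarith)
    rwa [Real.exp_log (by norm_num)] at h2
  have h2 : -(|ω| / (4 * z)) ≤ 1 / 4 + -((1 + |ω|) / z / 4) := by
    have e : (1 + |ω|) / z / 4 = 1 / (4 * z) + |ω| / (4 * z) := by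
      field_simp
    have h3 : 1 / (4 * z) ≤ 1 / 4 := one_div_le_one_div_of_le (by norm_num) (by linarith)
    linarith
  refine (Real.exp_le_exp.2 h2).trans ?_
  rw [Real.exp_add]
  exact mul_le_mul_of_nonneg_right h1 (Real.exp_pos _).le

end

end Pool.Agent.Helper56GD
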