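import Pool.Agent.N879.GD.Stm

/-! Dyadic decomposition and symmetry of the off-diagonal sum (piece SUM of project GD of helper30). -/

set_option autoImplicit false

namespace Pool.Agent.Helper56GD

open Complex Finset
open Pool.Agent.N879.GD
open Pool.Agent.Y969.GP (PS)

noncomputable section

theorem dy (g : ℕ → ℂ) (K I : ℕ) : ∑ d ∈ Finset.Ico 1 (min (2 ^ I) (K + 1)), g d =
    ∑ i ∈ Finset.range I, ∑ r ∈ Finset.range (min (2 ^ i) (K + 1 - 2 ^ i)), g (2 ^ i + r) := by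
  induction I with
  | zero => simp
  | succ I ih =>
    rw [Finset.sum_range_succ, ← ih]
    have hp : 1 ≤ 2 ^ I := Nat.one_le_two_pow
    have h2 : 2 ^ (I + 1) = 2 * 2 ^ I := by rw [pow_succ]; ring
    rw [← Finset.sum_Ico_consecutive g (show 1 ≤ min (2 ^ I) (K + 1) by omega)
      (show min (2 ^ I) (K + 1) ≤ min (2 ^ (I + 1)) (K + 1) by omega)]
    congr 1
    rcases le_total (K + 1) (2 ^ I) with h | h
    · rw [show K + 1 - 2 ^ I = 0 by omega, Nat.min_zero, Finset.range_zero, Finset.sum_empty,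
        Finset.Ico_eq_empty (by omega), Finset.sum_empty]
    · rw [Finset.sum_Ico_eq_sum_range]
      rw [show min (2 ^ I) (K + 1) = 2 ^ I by omega,
        show min (2 ^ (I + 1)) (K + 1) - 2 ^ I = min (2 ^ I) (K + 1 - 2 ^ I) by omega]

theorem row (f : ℕ → ℕ → ℂ) (X m I : ℕ) (hm : 1 ≤ m) (hI : X < 2 ^ I) :
    ∑ n ∈ Finset.Ioc m (X / m), f m n = ∑ i ∈ Finset.range I,
      ∑ r ∈ Finset.range (min (2 ^ i) (X / m - m + 1 - 2 ^ i)), f m (m + 2 ^ i + r) := by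
  have h1 := dy (fun d => f m (m + d)) (X / m - m) I
  have h2 : X / m ≤ X := Nat.div_le_self _ _
  rw [show min (2 ^ I) (X / m - m + 1) = X / m - m + 1 by omega] at h1
  have h3 : ∑ d ∈ Finset.Ico 1 (X / m - m + 1), f m (m + d) =
      ∑ n ∈ Finset.Ioc m (X / m), f m n := by
    have h4 : Finset.Ioc m (X / m) = (Finset.Ico 1 (X / m - m + 1)).image (fun d => m + d) := by
      ext n
      simp only [Finset.mem_Ioc, Finset.mem_image, Finset.mem_Ico]
      constructor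
      · intro h
        exact ⟨n - m, by omega, by omega⟩
      · rintro ⟨d, hd, rfl⟩
        omega
    rw [h4, Finset.sum_image fun a _ b _ hab => Nat.add_left_cancel hab]
  rw [← h3, h1]
  simp only [add_assoc]

theorem up_sum (f : ℕ → ℕ → ℂ) (X I : ℕ) (hI : X < 2 ^ I) :
    ∑ p ∈ (PS X).filter (fun p => p.1 < p.2), f p.1 p.2 = ∑ m ∈ Finset.Icc 1 X,
      ∑ i ∈ Finset.range I, ∑ r ∈ Finset.range (min (2 ^ i) (X / m - m + 1 - 2 ^ i)),
        f m (m + 2 ^ i + r) := by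
  have h1 : ∀ m ∈ Finset.Icc 1 X, ∑ i ∈ Finset.range I,
      ∑ r ∈ Finset.range (min (2 ^ i) (X / m - m + 1 - 2 ^ i)), f m (m + 2 ^ i + r) =
      ∑ n ∈ Finset.Ioc m (X / m), f m n := fun m hm =>
    (row f X m I (Finset.mem_Icc.1 hm).1 hI).symm
  rw [Finset.sum_congr rfl h1, Finset.sum_sigma']
  refine Finset.sum_nbij' (fun p => ⟨p.1, p.2⟩) (fun q => (q.1, q.2)) ?_ ?_ ?_ ?_ ?_
  · intro p hp
    simp only [PS, Finset.mem_filter, Finset.mem_product, Finset.mem_Icc, Finset.mem_sigma,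
      Finset.mem_Ioc] at hp ⊢
    obtain ⟨⟨⟨⟨h1, h2⟩, h3, h4⟩, h5⟩, h6⟩ := hp
    exact ⟨⟨h1, h2⟩, h6, (Nat.le_div_iff_mul_le (by omega)).2 (by rw [mul_comm]; exact h5)⟩
  · intro q hq
    simp only [PS, Finset.mem_filter, Finset.mem_product, Finset.mem_Icc, Finset.mem_sigma,
      Finset.mem_Ioc] at hq ⊢
    obtain ⟨⟨h1, h2⟩, h3, h4⟩ := hq
    have h5 := (Nat.le_div_iff_mul_le (show 0 < q.1 by omega)).1 h4
    have h6 : X / q.1 ≤ X := Nat.div_le_self _ _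
    exact ⟨⟨⟨⟨h1, h2⟩, by omega, by omega⟩, by rw [mul_comm]; exact h5⟩, h3⟩
  · intro p _
    rfl
  · intro q _
    rfl
  · intro p _
    rfl

theorem up_norm (f : ℕ → ℕ → ℂ) (X I : ℕ) (hI : X < 2 ^ I) (B : ℝ) (hB : 0 ≤ B)
    (h : ∀ m i L : ℕ, 1 ≤ m → L ≤ 2 ^ i → m * (m + 2 ^ i) ≤ X →
      ‖∑ r ∈ Finset.range L, f m (m + 2 ^ i + r)‖ ≤ B / m) :
    ‖∑ p ∈ (PS X).filter (fun p => p.1 < p.2), f p.1 p.2‖ ≤
      B * I * ∑ m ∈ Finset.Icc 1 X, (1 / m : ℝ) := by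
  rw [up_sum f X I hI, Finset.mul_sum]
  refine (norm_sum_le _ _).trans (Finset.sum_le_sum fun m hm => ?_)
  have hm1 := (Finset.mem_Icc.1 hm).1
  refine (norm_sum_le _ _).trans ?_
  have h1 : ∀ i ∈ Finset.range I, ‖∑ r ∈ Finset.range (min (2 ^ i) (X / m - m + 1 - 2 ^ i)),
      f m (m + 2 ^ i + r)‖ ≤ B / m := by
    intro i _
    by_cases h2 : 2 ^ i < X / m - m + 1
    · refine h m i _ hm1 (min_le_left _ _) ?_
      have hp : 1 ≤ 2 ^ i := Nat.one_le_two_pow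
      have h3 : m + 2 ^ i ≤ X / m := by omega
      have h4 := (Nat.le_div_iff_mul_le (show 0 < m by omega)).1 h3
      rw [mul_comm]
      exact h4
    · rw [show X / m - m + 1 - 2 ^ i = 0 by omega, Nat.min_zero, Finset.range_zero,
        Finset.sum_empty, norm_zero]
      positivity
  refine (Finset.sum_le_sum h1).trans (le_of_eq ?_)
  rw [Finset.sum_const, Finset.card_range, nsmul_eq_mul]
  ring

/-! symmetry -/

theorem GG_conj (b : ℕ) (T x ω : ℝ) : (starRingEnd ℂ) (GG b T x ω) = GG b T (-x) (-ω) := by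
  unfold GG
  rw [← integral_conj]
  congr 1
  funext u
  rw [map_mul, Complex.conj_ofReal, ← Complex.exp_conj, map_mul, Complex.conj_I,
    Complex.conj_ofReal]
  congr 2
  push_cast
  ring

theorem bt_conj (σ : ℝ) (b : ℕ) (T y ω : ℝ) (m n : ℕ) :
    bt σ b T y ω n m = (starRingEnd ℂ) (bt σ b T (-y) (-ω) m n) := by
  unfold bt
  rw [map_mul, map_mul, Complex.conj_ofReal, ← Complex.exp_conj, GG_conj]
  have e1 : (starRingEnd ℂ) (-(((σ : ℂ) + I * ((-y : ℝ) : ℂ)) *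
      ((Real.log ((m : ℝ) * n) : ℝ) : ℂ))) =
      -(((σ : ℂ) + I * (y : ℂ)) * ((Real.log ((n : ℝ) * m) : ℝ) : ℂ)) := by
    rw [map_neg, map_mul, map_add, map_mul, Complex.conj_ofReal, Complex.conj_ofReal,
      Complex.conj_ofReal, Complex.conj_I, mul_comm (m : ℝ) n]
    push_cast
    ring
  rw [e1, neg_neg, neg_sub, mul_comm (m : ℝ) n]

theorem down (σ : ℝ) (b : ℕ) (T y ω : ℝ) (X : ℕ) :
    ∑ p ∈ (PS X).filter (fun p => p.2 < p.1), bt σ b T y ω p.1 p.2 =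
      (starRingEnd ℂ) (∑ p ∈ (PS X).filter (fun p => p.1 < p.2), bt σ b T (-y) (-ω) p.1 p.2) := by
  rw [map_sum]
  refine Finset.sum_nbij' (fun p => (p.2, p.1)) (fun q => (q.2, q.1)) ?_ ?_ ?_ ?_ ?_
  · intro p hp
    simp only [PS, Finset.mem_filter, Finset.mem_product, Finset.mem_Icc] at hp ⊢
    exact ⟨⟨⟨hp.1.1.2, hp.1.1.1⟩, by rw [mul_comm]; exact hp.1.2⟩, hp.2⟩
  · intro p hp
    simp only [PS, Finset.mem_filter, Finset.mem_product, Finset.mem_Icc] at hp ⊢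
    exact ⟨⟨⟨hp.1.1.2, hp.1.1.1⟩, by rw [mul_comm]; exact hp.1.2⟩, hp.2⟩
  · intro p _
    rfl
  · intro q _
    rfl
  · intro p _
    exact bt_conj σ b T y ω p.2 p.1

theorem split (σ : ℝ) (b : ℕ) (T y ω : ℝ) (X : ℕ) :
    ∑ p ∈ (PS X).filter (fun p => p.1 ≠ p.2), bt σ b T y ω p.1 p.2 =
      ∑ p ∈ (PS X).filter (fun p => p.1 < p.2), bt σ b T y ω p.1 p.2 +
      ∑ p ∈ (PS X).filter (fun p => p.2 < p.1), bt σ b T y ω p.1 p.2 := by
  rw [← Finset.sum_union]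
  · congr 1
    ext p
    simp only [Finset.mem_filter, Finset.mem_union]
    constructor
    · rintro ⟨h1, h2⟩
      rcases lt_or_gt_of_ne h2 with h | h
      · exact Or.inl ⟨h1, h⟩
      · exact Or.inr ⟨h1, h⟩
    · rintro (⟨h1, h2⟩ | ⟨h1, h2⟩)
      · exact ⟨h1, h2.ne⟩
      · exact ⟨h1, h2.ne'⟩
  · rw [Finset.disjoint_left]
    intro p h1 h2
    have h3 := (Finset.mem_filter.1 h1).2
    have h4 := (Finset.mem_filter.1 h2).2
    omega

end

end Pool.Agent.Helper56GD
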