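import Pool.Agent.Helper56GD.Blk
import Pool.Agent.Helper56GD.Dyad

/-! Piece SUM of project GD of helper30. -/

set_option autoImplicit false

namespace Pool.Agent.Helper56GD

open Complex Finset
open Pool.Agent.N879.GD
open Pool.Agent.Y969.GP (PS)

noncomputable section

theorem harm (X : ℕ) : ∑ m ∈ Finset.Icc 1 X, (1 / m : ℝ) ≤ 1 + Real.log X := by
  have h1 := harmonic_le_one_add_log X
  refine le_trans (le_of_eq ?_) h1
  rw [harmonic_eq_sum_Icc]
  push_cast
  refine Finset.sum_congr rfl fun m _ => ?_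
  rw [one_div]

theorem cnt (X : ℕ) (hX : 1 ≤ X) : ((Nat.log 2 X + 1 : ℕ) : ℝ) ≤ 1 + 2 * Real.log X := by
  have h1 : 2 ^ Nat.log 2 X ≤ X := Nat.pow_log_le_self 2 (by omega)
  have h2 : ((2 : ℝ) ^ Nat.log 2 X) ≤ X := by exact_mod_cast h1
  have h3 := Real.log_le_log (by positivity) h2
  rw [Real.log_pow] at h3
  have h4 := Real.log_two_gt_d9
  have h5 : (0 : ℝ) ≤ (Nat.log 2 X : ℕ) := Nat.cast_nonneg _
  push_cast
  nlinarith

theorem t_SUM (hA : S_BA) (hB : S_BB) : S_SUM := by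
  obtain ⟨s, C, hs, hs1, hC, hblk⟩ := blk hA hB
  refine ⟨s, s / 4, 4, hs, by linarith, by positivity, by linarith, le_refl _,
    2 * C * (1600 / s ^ 2), 256, by positivity, by norm_num, ?_⟩
  intro σ T y ω X hσ0 hσ1 hT hX1 hX2
  have hT0 : 0 < T := by linarith
  have hT1 : 1 ≤ T := by linarith
  have hXT : (T : ℝ) ≤ X := by
    refine le_trans ?_ hX1
    calc T = T ^ (1 : ℝ) := (Real.rpow_one T).symm
      _ ≤ T ^ (1 + s) := Real.rpow_le_rpow_of_exponent_le hT1 (by linarith)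
  have hX0 : (0 : ℝ) < X := by linarith
  have hXn : 1 ≤ X := by exact_mod_cast (show (1 : ℝ) ≤ X by linarith)
  -- the logarithm of X
  have hlog1 : 1 ≤ Real.log T := by
    have h1 : Real.log 4 ≤ Real.log T := Real.log_le_log (by norm_num) (by linarith)
    have h2 : Real.log 4 = 2 * Real.log 2 := by
      rw [show (4 : ℝ) = 2 ^ 2 by norm_num, Real.log_pow]
      norm_num
    have h3 := Real.log_two_gt_d9
    linarith
  have hlogX : Real.log X ≤ 2 * Real.log T := by
    have h1 : (X : ℝ) ≤ T * T := by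
      refine hX2.trans ?_
      have h2 : T ^ (1 + s) ≤ T ^ (3 / 2 : ℝ) := Real.rpow_le_rpow_of_exponent_le hT1 (by linarith)
      have h3 : T ^ (3 / 2 : ℝ) = T * √T := by
        rw [Real.sqrt_eq_rpow, show (3 / 2 : ℝ) = 1 + 1 / 2 by norm_num, Real.rpow_add hT0,
          Real.rpow_one]
      have h4 : 2 ≤ √T := Real.le_sqrt_of_sq_le (by linarith)
      have h5 : √T * √T = T := Real.mul_self_sqrt hT0.le
      have h6 : T * (2 * √T) ≤ T * (√T * √T) :=
        mul_le_mul_of_nonneg_left (mul_le_mul_of_nonneg_right h4 (Real.sqrt_nonneg _)) hT0.le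
      rw [h5] at h6
      linarith
    have h2 := Real.log_le_log hX0 h1
    rw [Real.log_mul hT0.ne' hT0.ne'] at h2
    linarith
  have hlogT : Real.log T ≤ 8 / s * T ^ (s / 8) := by
    have h1 := Real.log_le_rpow_div hT0.le (show 0 < s / 8 by positivity)
    refine h1.trans (le_of_eq ?_)
    field_simp
  obtain ⟨I, hI⟩ : ∃ I : ℕ, I = Nat.log 2 X + 1 := ⟨_, rfl⟩
  have hXI : X < 2 ^ I := by
    rw [hI]
    exact Nat.lt_pow_succ_log_self (by norm_num) X
  have hcnt : (I : ℝ) ≤ 5 * Real.log T := by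
    have h1 := cnt X hXn
    rw [← hI] at h1
    linarith
  have hharm : ∑ m ∈ Finset.Icc 1 X, (1 / m : ℝ) ≤ 5 * Real.log T := by
    have h1 := harm X
    linarith
  have hsum0 : (0 : ℝ) ≤ ∑ m ∈ Finset.Icc 1 X, (1 / m : ℝ) :=
    Finset.sum_nonneg fun m _ => by positivity
  have hprod : (I : ℝ) * ∑ m ∈ Finset.Icc 1 X, (1 / m : ℝ) ≤ 1600 / s ^ 2 * T ^ (s / 4) := by
    have h1 : 5 * Real.log T ≤ 40 / s * T ^ (s / 8) := by
      calc 5 * Real.log T ≤ 5 * (8 / s * T ^ (s / 8)) := by linarith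
        _ = 40 / s * T ^ (s / 8) := by ring
    have h2 : T ^ (s / 4) = T ^ (s / 8) * T ^ (s / 8) := by
      rw [← Real.rpow_add hT0]
      congr 1
      ring
    calc (I : ℝ) * ∑ m ∈ Finset.Icc 1 X, (1 / m : ℝ) ≤
        (40 / s * T ^ (s / 8)) * (40 / s * T ^ (s / 8)) :=
          mul_le_mul (hcnt.trans h1) (hharm.trans h1) hsum0 (by positivity)
      _ = 1600 / s ^ 2 * T ^ (s / 4) := by
          rw [h2]
          ring
  have key : ∀ y ω : ℝ, ‖∑ p ∈ (PS X).filter (fun p => p.1 < p.2), bt σ 4 T y ω p.1 p.2‖ ≤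
      C * (1 + |y|) * (1600 / s ^ 2) * T ^ (-(s / 4)) := by
    intro y ω
    have h1 := up_norm (fun m n => bt σ 4 T y ω m n) X I hXI
      (C * (1 + |y|) * T ^ (s / 2 - s)) (by positivity) (by
        intro m i L hm hL hmX
        have h2 := hblk s σ T y ω m (2 ^ i) L X hs (by linarith) hσ0 hσ1 hT hX1 hX2 hm
          Nat.one_le_two_pow hL hmX
        refine h2.trans (le_of_eq ?_)
        ring)
    refine h1.trans ?_
    have h3 : T ^ (s / 2 - s) * T ^ (s / 4) = T ^ (-(s / 4)) := by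
      rw [← Real.rpow_add hT0]
      congr 1
      ring
    calc C * (1 + |y|) * T ^ (s / 2 - s) * I * ∑ m ∈ Finset.Icc 1 X, (1 / m : ℝ) =
        C * (1 + |y|) * T ^ (s / 2 - s) * (I * ∑ m ∈ Finset.Icc 1 X, (1 / m : ℝ)) := by ring
      _ ≤ C * (1 + |y|) * T ^ (s / 2 - s) * (1600 / s ^ 2 * T ^ (s / 4)) :=
          mul_le_mul_of_nonneg_left hprod (by positivity)
      _ = C * (1 + |y|) * (1600 / s ^ 2) * (T ^ (s / 2 - s) * T ^ (s / 4)) := by ring
      _ = _ := by rw [h3]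
  rw [split, down]
  refine (norm_add_le _ _).trans ?_
  rw [RCLike.norm_conj]
  have h1 := key y ω
  have h2 := key (-y) (-ω)
  rw [abs_neg] at h2
  linarith

end

end Pool.Agent.Helper56GD
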